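import Mathlib

set_option autoImplicit false

namespace Pool.Agent.Results.MP_2b3d15_co.InfiniteCells

universe u

variable {V : Type u}

/-- The ball `B(v,r)` of a graph. -/
def ball (G : SimpleGraph V) (v : V) (r : ℕ) : Set V := {x | G.dist v x ≤ r}

/-- Linear growth: the sizes of all balls of radius `r` are bounded by one linear function of `r`. -/
def LinearGrowth (G : SimpleGraph V) : Prop :=
  ∃ a b : ℕ, ∀ (v : V) (r : ℕ), (ball G v r).encard ≤ ((a * r + b : ℕ) : ℕ∞)

/-- The graph is locally finite. -/
def LocFinite (G : SimpleGraph V) : Prop := ∀ v : V, (G.neighborSet v).Finite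

/-- The Voronoi cell of `v` with respect to the finite set of sites `T` (ties are not broken). -/
def cell (G : SimpleGraph V) (v : V) (T : Finset V) : Set V :=
  {x | ∀ w ∈ T, G.dist x v ≤ G.dist x w}

/-- The number `I(T)` of infinite Voronoi cells. -/
noncomputable def infiniteCells (G : SimpleGraph V) (T : Finset V) : ℕ :=
  {v : V | v ∈ T ∧ (cell G v T).Infinite}.ncard

/-- `M(G)`, the supremum of `I(T)` over all finite nonempty sets `T` of sites. -/
noncomputable def maxInfiniteCells (G : SimpleGraph V) : ℕ∞ :=
  ⨆ T : {T : Finset V // T.Nonempty}, (infiniteCells G T.1 : ℕ∞)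

theorem ball_finite (G : SimpleGraph V) (hconn : G.Connected) (hlf : LocFinite G) (v : V) (r : ℕ) :
    (ball G v r).Finite := by
  induction r with
  | zero =>
    refine (Set.finite_singleton v).subset ?_
    intro x hx
    have hx0 : G.dist v x = 0 := Nat.le_zero.1 hx
    have := (hconn.dist_eq_zero_iff).1 hx0
    simp [this]
  | succ r ih =>
    have : ball G v (r + 1) ⊆ ball G v r ∪ ⋃ y ∈ ball G v r, G.neighborSet y := by
      intro x hx
      by_cases hxr : G.dist v x ≤ r
      · exact Or.inl hxr
      · have hd : G.dist v x = r + 1 := by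
          have : G.dist v x ≤ r + 1 := hx
          omega
        right
        obtain ⟨p, hp⟩ := hconn.exists_walk_length_eq_dist v x
        have hlen : p.length = r + 1 := by rw [hp, hd]
        have hnn : ¬ p.reverse.Nil := by
          intro h
          have := SimpleGraph.Walk.length_eq_zero_iff.2 h
          rw [SimpleGraph.Walk.length_reverse] at this
          omega
        have hadj := SimpleGraph.Walk.adj_snd hnn
        have hlt : p.reverse.tail.length = r := by
          have h1 := SimpleGraph.Walk.length_tail_add_one hnn
          rw [SimpleGraph.Walk.length_reverse] at h1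
          omega
        refine Set.mem_biUnion (x := p.reverse.snd) ?_ hadj.symm
        show G.dist v _ ≤ r
        rw [SimpleGraph.dist_comm]
        exact hlt ▸ SimpleGraph.dist_le _
    refine Set.Finite.subset (ih.union (ih.biUnion fun y _ => hlf y)) this

/-- **MP_2b3d15_co, Q1, answered affirmatively.**  Every infinite, connected, locally finite graph
whose balls are not bounded by a linear function of the radius satisfies `M(G) = ∞`: for each `n`
there is a finite nonempty set of sites with at least `n` infinite Voronoi cells.  In particular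
this holds for every infinite vertex-transitive graph of non-linear growth; the proof does not use
vertex-transitivity. -/
theorem result (G : SimpleGraph V) (hinf : Infinite V) (hconn : G.Connected) (hlf : LocFinite G)
    (hgrowth : ¬ LinearGrowth G) : maxInfiniteCells G = ⊤ := by
  classical
  rw [ENat.eq_top_iff_forall_ge]
  intro n
  have hg : ∃ (v : V) (r : ℕ), ((2 * n * r + n : ℕ) : ℕ∞) < (ball G v r).encard := by
    by_contra hcon
    push Not at hcon
    exact hgrowth ⟨2 * n, n, hcon⟩
  obtain ⟨v, r, hvr⟩ := hg
  have hfin := ball_finite G hconn hlf v r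
  set B : Finset V := hfin.toFinset with hB
  have hBcard : 2 * n * r + n < B.card := by
    rw [hfin.encard_eq_coe_toFinset_card] at hvr
    exact_mod_cast hvr
  have hmem : ∀ x, x ∈ B ↔ G.dist v x ≤ r := by
    intro x
    simp [hB, ball]
  -- for every `x`, many points of the ball at the same distance from `x`
  have hpig : ∀ x : V, ∃ d : ℕ, n < (B.filter fun y => G.dist x y = d).card := by
    intro x
    have hmaps : ∀ y ∈ B, G.dist x y ∈ Finset.Icc (G.dist x v - r) (G.dist x v + r) := by
      intro y hy
      have hy' := (hmem y).1 hy
      have h1 : G.dist x y ≤ G.dist x v + G.dist v y := hconn.dist_triangle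
      have h2 : G.dist x v ≤ G.dist x y + G.dist y v := hconn.dist_triangle
      rw [SimpleGraph.dist_comm (u := y) (v := v)] at h2
      rw [Finset.mem_Icc]
      omega
    have hcard : (Finset.Icc (G.dist x v - r) (G.dist x v + r)).card * n < B.card := by
      rw [Nat.card_Icc]
      have : (G.dist x v + r + 1 - (G.dist x v - r)) ≤ 2 * r + 1 := by omega
      calc _ ≤ (2 * r + 1) * n := Nat.mul_le_mul_right _ this
        _ = 2 * n * r + n := by ring
        _ < _ := hBcard
    obtain ⟨d, _, hd⟩ := Finset.exists_lt_card_fiber_of_mul_lt_card_of_maps_to hmaps hcard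
    exact ⟨d, hd⟩
  choose d hd using hpig
  let F : V → (B.powerset : Finset (Finset V)) := fun x =>
    ⟨B.filter fun y => G.dist x y = d x, Finset.mem_powerset.2 (Finset.filter_subset _ _)⟩
  obtain ⟨T, hT⟩ := Finite.exists_infinite_fiber F
  have hTinf : (F ⁻¹' {T}).Infinite := Set.infinite_coe_iff.1 hT
  obtain ⟨x0, hx0⟩ := hTinf.nonempty
  have hTcard : n < T.1.card := by
    have : F x0 = T := hx0
    rw [← this]
    exact hd x0
  have hTne : T.1.Nonempty := by
    rw [← Finset.card_pos]; omega
  have hcell : ∀ w ∈ T.1, (cell G w T.1).Infinite := by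
    intro w hw
    refine hTinf.mono ?_
    intro x hx y hy
    have hxT : F x = T := hx
    rw [← hxT] at hw hy
    have h1 : G.dist x w = d x := (Finset.mem_filter.1 hw).2
    have h2 : G.dist x y = d x := (Finset.mem_filter.1 hy).2
    rw [h1, h2]
  have hI : infiniteCells G T.1 = T.1.card := by
    unfold infiniteCells
    have : {w : V | w ∈ T.1 ∧ (cell G w T.1).Infinite} = (T.1 : Set V) := by
      ext w
      constructor
      · intro h; exact h.1
      · intro h; exact ⟨h, hcell w h⟩
    rw [this, Set.ncard_coe_finset]
  have hle : (infiniteCells G T.1 : ℕ∞) ≤ maxInfiniteCells G :=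
    le_iSup (fun T : {T : Finset V // T.Nonempty} => (infiniteCells G T.1 : ℕ∞)) ⟨T.1, hTne⟩
  refine le_trans ?_ hle
  rw [hI]
  exact_mod_cast hTcard.le

end Pool.Agent.Results.MP_2b3d15_co.InfiniteCells
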